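import Mathlib

/-!
# Multiples of a real number modulo one
-/

namespace Pool.Agent.TH116.SC

/-- A real number which is not an integer has arbitrarily large multiples `k x` whose fractional part
lies in the given interval `(a, c)` or is `1 / p` for a prime number `p ≤ 1 / (c - a)`. -/
theorem exists_multiple {x a c : ℝ} (ha : 0 ≤ a) (hac : a < c) (hc : c ≤ 1)
    (hx : ∀ n : ℤ, x ≠ n) (N : ℕ) :
    ∃ k : ℕ, N ≤ k ∧ 1 ≤ k ∧ (Int.fract (k * x) ∈ Set.Ioo a c ∨
      ∃ p : ℕ, p.Prime ∧ (p : ℝ) * (c - a) ≤ 1 ∧ Int.fract (k * x) = 1 / p) := by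
  have hδ : 0 < c - a := by linarith
  have hδ1 : c - a ≤ 1 := by linarith
  have hn1 : 1 ≤ ⌊1 / (c - a)⌋₊ := by
    rw [Nat.one_le_floor_iff, le_div_iff₀ hδ]
    linarith
  obtain ⟨k, hk0, hkn, hk⟩ := Real.exists_nat_abs_mul_sub_round_le x (n := ⌊1 / (c - a)⌋₊) hn1
  have hlt : 1 / ((⌊1 / (c - a)⌋₊ : ℝ) + 1) < c - a := by
    rw [div_lt_iff₀ (by positivity)]
    have := Nat.lt_floor_add_one (1 / (c - a))
    rw [div_lt_iff₀ hδ] at this
    linarith
  have hkδ : (k : ℝ) * (c - a) ≤ 1 := by
    have h1 : (k : ℝ) ≤ ⌊1 / (c - a)⌋₊ := by exact_mod_cast hkn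
    have h2 : ((⌊1 / (c - a)⌋₊ : ℕ) : ℝ) ≤ 1 / (c - a) := Nat.floor_le (by positivity)
    have h3 := h1.trans h2
    rwa [le_div_iff₀ hδ] at h3
  set η := (k : ℝ) * x - round ((k : ℝ) * x) with hη
  have hηδ : |η| < c - a := lt_of_le_of_lt hk hlt
  by_cases h0 : η = 0
  · -- `x` is rational
    have hkx : (k : ℝ) * x = round ((k : ℝ) * x) := by linarith
    set m : ℤ := round ((k : ℝ) * x) with hm
    have hkR : (0 : ℝ) < k := by exact_mod_cast hk0
    set q : ℚ := (m : ℚ) / (k : ℚ) with hq
    have hxq : x = (q : ℝ) := by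
      rw [hq]
      push_cast
      rw [eq_div_iff hkR.ne']
      linarith
    have hden : q.den ∣ k := by
      have := Rat.den_dvd m (k : ℤ)
      rw [Rat.divInt_eq_div] at this
      have h2 : ((q.den : ℕ) : ℤ) ∣ (k : ℤ) := by
        rw [hq]
        exact_mod_cast this
      exact_mod_cast h2
    have hden1 : q.den ≠ 1 := by
      intro h
      have h2 : (q.num : ℚ) = q := Rat.coe_int_num_of_den_eq_one h
      apply hx q.num
      rw [hxq, ← h2]
      simp
    have hp := Nat.minFac_prime hden1
    set p := q.den.minFac with hpdef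
    obtain ⟨t, ht⟩ := Nat.minFac_dvd q.den
    rw [← hpdef] at ht
    have ht0 : 0 < t := by
      rcases Nat.eq_zero_or_pos t with h | h
      · rw [h, mul_zero] at ht
        exact absurd ht q.den_nz
      · exact h
    have := Fact.mk hp
    have hcop : ((q.num : ℤ) : ZMod p) ≠ 0 := by
      rw [ne_eq, ZMod.intCast_zmod_eq_zero_iff_dvd]
      intro h
      have h1 : p ∣ q.num.natAbs := by
        exact Int.natCast_dvd.1 h
      have h2 : p ∣ q.den := Nat.minFac_dvd _
      have h3 := Nat.dvd_gcd h1 h2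
      rw [q.reduced] at h3
      exact hp.one_lt.ne' (Nat.dvd_one.1 h3)
    set u : ℕ := ((q.num : ZMod p)⁻¹).val with hu
    have hu1 : ((u : ℤ) * q.num : ℤ) ≡ 1 [ZMOD p] := by
      rw [← ZMod.intCast_eq_intCast_iff]
      push_cast
      rw [hu, ZMod.natCast_zmod_val, inv_mul_cancel₀ hcop]
    obtain ⟨w, hw⟩ := (Int.modEq_iff_dvd.1 hu1.symm)
    refine ⟨(u + p * (N + 1)) * t, ?_, ?_, Or.inr ⟨p, hp, ?_, ?_⟩⟩
    · have h1 := hp.one_lt
      calc N ≤ 1 * (N + 1) * 1 := by omega
        _ ≤ (u + p * (N + 1)) * t := by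
            apply Nat.mul_le_mul _ ht0
            have : 1 * (N + 1) ≤ p * (N + 1) := Nat.mul_le_mul_right _ h1.le
            omega
    · have h1 := hp.one_lt
      calc 1 ≤ 1 * (N + 1) * 1 := by omega
        _ ≤ (u + p * (N + 1)) * t := by
            apply Nat.mul_le_mul _ ht0
            have : 1 * (N + 1) ≤ p * (N + 1) := Nat.mul_le_mul_right _ h1.le
            omega
    · have h1 : p ≤ k := (Nat.minFac_le (Nat.pos_of_ne_zero q.den_nz)).trans
        (Nat.le_of_dvd hk0 hden)
      have h2 : (p : ℝ) ≤ k := by exact_mod_cast h1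
      nlinarith
    · have hp0 : (0 : ℝ) < p := by exact_mod_cast hp.pos
      have hp1 : (1 : ℝ) < p := by exact_mod_cast hp.one_lt
      rw [Int.fract_eq_iff]
      refine ⟨by positivity, ?_, w + (N + 1) * q.num, ?_⟩
      · rw [div_lt_one hp0]
        exact hp1
      · have hqx : x = (q.num : ℝ) / (p * t) := by
          rw [hxq]
          conv_lhs => rw [← Rat.num_div_den q]
          rw [ht]
          push_cast
          rfl
        have hwR : (u : ℝ) * q.num - 1 = p * w := by exact_mod_cast hw
        have htR : (t : ℝ) ≠ 0 := by exact_mod_cast ht0.ne'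
        rw [hqx]
        push_cast
        field_simp
        linear_combination hwR
  · -- small non-zero step
    have hfr : ∀ M : ℕ, ∀ z : ℤ, (z : ℝ) + a < M * η → M * η < z + c →
        Int.fract (((M * k : ℕ) : ℝ) * x) ∈ Set.Ioo a c := by
      intro M z h1 h2
      have h3 : Int.fract (((M * k : ℕ) : ℝ) * x) = M * η - z := by
        rw [Int.fract_eq_iff]
        refine ⟨by linarith, by linarith, M * round ((k : ℝ) * x) + z, ?_⟩
        rw [hη]
        push_cast
        ring
      rw [h3]
      exact ⟨by linarith, by linarith⟩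
    rcases lt_or_gt_of_ne h0 with hneg | hpos
    · -- negative step
      set e := -η with he
      have he0 : 0 < e := by rw [he]; linarith
      have heδ : e < c - a := by rw [he, ← abs_of_neg hneg]; exact hηδ
      obtain ⟨z, hz⟩ := exists_nat_gt ((N : ℝ) * e + c)
      set M := ⌊((z : ℝ) - c) / e⌋₊ + 1 with hM
      have hzc : 0 ≤ ((z : ℝ) - c) / e := by
        apply div_nonneg _ he0.le
        have : (0 : ℝ) ≤ N * e := by positivity
        linarith
      have hM1 : ((z : ℝ) - c) < M * e := by
        rw [← div_lt_iff₀ he0, hM]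
        push_cast
        exact Nat.lt_floor_add_one _
      have hM2 : (M : ℝ) * e ≤ (z - c) + e := by
        have : ((⌊((z : ℝ) - c) / e⌋₊ : ℕ) : ℝ) ≤ ((z : ℝ) - c) / e := Nat.floor_le hzc
        rw [le_div_iff₀ he0] at this
        rw [hM]
        push_cast
        linarith
      have hNM : N ≤ M := by
        have h1 : (N : ℝ) * e < M * e := by linarith
        have h2 : (N : ℝ) < M := lt_of_mul_lt_mul_right h1 he0.le
        exact_mod_cast h2.le
      have hM0 : 1 ≤ M := by omega
      refine ⟨M * k, ?_, ?_, Or.inl ?_⟩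
      · exact hNM.trans (Nat.le_mul_of_pos_right _ hk0)
      · exact Nat.mul_pos hM0 hk0
      · have h4 : (M : ℝ) * η = -(M * e) := by rw [he]; ring
        refine hfr M (-z) ?_ ?_
        · rw [h4]
          push_cast
          linarith
        · rw [h4]
          push_cast
          linarith
    · -- positive step
      have heδ : η < c - a := by rw [← abs_of_pos hpos]; exact hηδ
      obtain ⟨z, hz⟩ := exists_nat_gt ((N : ℝ) * η)
      set M := ⌊((z : ℝ) + a) / η⌋₊ + 1 with hM
      have hzc : 0 ≤ ((z : ℝ) + a) / η := by positivity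
      have hM1 : ((z : ℝ) + a) < M * η := by
        rw [← div_lt_iff₀ hpos, hM]
        push_cast
        exact Nat.lt_floor_add_one _
      have hM2 : (M : ℝ) * η ≤ (z + a) + η := by
        have : ((⌊((z : ℝ) + a) / η⌋₊ : ℕ) : ℝ) ≤ ((z : ℝ) + a) / η := Nat.floor_le hzc
        rw [le_div_iff₀ hpos] at this
        rw [hM]
        push_cast
        linarith
      have hNM : N ≤ M := by
        have h1 : (N : ℝ) * η < M * η := by linarith
        have h2 : (N : ℝ) < M := lt_of_mul_lt_mul_right h1 hpos.le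
        exact_mod_cast h2.le
      have hM0 : 1 ≤ M := by omega
      refine ⟨M * k, ?_, ?_, Or.inl ?_⟩
      · exact hNM.trans (Nat.le_mul_of_pos_right _ hk0)
      · exact Nat.mul_pos hM0 hk0
      · refine hfr M z ?_ ?_
        · push_cast
          linarith
        · push_cast
          linarith

end Pool.Agent.TH116.SC
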