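import Mathlib
import Pool.Agent.H510R2.Div

/-!
# The Selberg class is closed under products
-/

open Complex

namespace Pool.Agent.TH116.SC

/-- `E` is of finite order. -/
def FiniteOrder (E : ℂ → ℂ) : Prop :=
  ∃ ρ C : ℝ, ∀ s : ℂ, ‖E s‖ ≤ C * Real.exp (‖s‖ ^ ρ)

/-- The coefficients satisfy `a(n) ≪ n^ε` for all `ε > 0`. -/
def Ramanujan (a : ℕ → ℂ) : Prop :=
  ∀ ε : ℝ, 0 < ε → ∃ C : ℝ, ∀ n : ℕ, 1 ≤ n → ‖a n‖ ≤ C * (n : ℝ) ^ ε

/-- `s` is not a pole of `Π_j Γ(λ_j s + μ_j)`. -/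
def Regular {R : ℕ} (lam : Fin R → ℝ) (mu : Fin R → ℂ) (s : ℂ) : Prop :=
  ∀ j, ∀ n : ℕ, (lam j : ℂ) * s + mu j ≠ -(n : ℂ)

/-- The product `F(s) Q^s Π_j Γ(λ_j s + μ_j)`, with `F(s) = E(s) / (s - 1)^m`. -/
noncomputable def Completed {R : ℕ} (m : ℕ) (E : ℂ → ℂ) (Q : ℝ) (lam : Fin R → ℝ)
    (mu : Fin R → ℂ) (s : ℂ) : ℂ :=
  E s / (s - 1) ^ m * (Q : ℂ) ^ s * ∏ j, Complex.Gamma ((lam j : ℂ) * s + mu j)

/-- The Euler product `F(s) = Π_p exp(Σ_k b(p^k) p^{-ks})` for `Re s > 1`. -/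
def EulerProduct (a b : ℕ → ℂ) : Prop :=
  ∀ s : ℂ, 1 < s.re →
    HasProd (fun p : Nat.Primes =>
      Complex.exp (∑' k : ℕ, b ((p : ℕ) ^ (k + 1)) *
        ((p : ℕ) : ℂ) ^ (-(((k + 1 : ℕ) : ℂ) * s))))
      (LSeries a s)

/-- An element `F` of the Selberg class, with the data in its axioms. -/
structure SelbergFn where
  /-- the Dirichlet coefficients -/
  a : ℕ → ℂ
  ne_zero : ∃ n : ℕ, 0 < n ∧ a n ≠ 0
  ramanujan : Ramanujan a
  /-- an exponent such that `(s - 1)^m F(s)` is entire -/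
  m : ℕ
  /-- the entire function `(s - 1)^m F(s)` -/
  E : ℂ → ℂ
  entire : Differentiable ℂ E
  finiteOrder : FiniteOrder E
  E_eq : ∀ s : ℂ, 1 < s.re → E s = (s - 1) ^ m * LSeries a s
  /-- the number of gamma factors -/
  R : ℕ
  /-- the constant in the functional equation -/
  Q : ℝ
  /-- the coefficients in the gamma factors -/
  lam : Fin R → ℝ
  /-- the shifts in the gamma factors -/
  mu : Fin R → ℂ
  /-- the sign in the functional equation -/
  ω : ℂ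
  Q_pos : 0 < Q
  lam_pos : ∀ j, 0 < lam j
  mu_re : ∀ j, 0 ≤ (mu j).re
  norm_ω : ‖ω‖ = 1
  functionalEquation : ∀ s : ℂ, s ≠ 0 → s ≠ 1 → Regular lam mu s →
    Regular lam mu (1 - starRingEnd ℂ s) →
    Completed m E Q lam mu s = ω * starRingEnd ℂ (Completed m E Q lam mu (1 - starRingEnd ℂ s))
  /-- the coefficients of `log F` -/
  b : ℕ → ℂ
  /-- the exponent in the bound for `b` -/
  θ : ℝ
  θ_lt : θ < 1 / 2
  b_bound : ∃ C : ℝ, ∀ p k : ℕ, p.Prime → 1 ≤ k → ‖b (p ^ k)‖ ≤ C * ((p ^ k : ℕ) : ℝ) ^ θ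
  euler : EulerProduct a b

/-- The degree `d_F = 2 Σ_j λ_j`. -/
noncomputable def SelbergFn.degree (F : SelbergFn) : ℝ := 2 * ∑ j, F.lam j

lemma SelbergFn.degree_nonneg (F : SelbergFn) : 0 ≤ F.degree :=
  mul_nonneg (by norm_num) (Finset.sum_nonneg fun j _ => (F.lam_pos j).le)

lemma FiniteOrder.normalize {E : ℂ → ℂ} (hE : Differentiable ℂ E) (h : FiniteOrder E) :
    ∃ ρ₀ : ℝ, ∀ ρ : ℝ, ρ₀ ≤ ρ → ∃ C : ℝ, 0 ≤ C ∧ ∀ s : ℂ, ‖E s‖ ≤ C * Real.exp (‖s‖ ^ ρ) := by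
  obtain ⟨ρ₀, C, hC⟩ := h
  refine ⟨ρ₀, fun ρ hρ => ?_⟩
  obtain ⟨B, hB⟩ := (isCompact_closedBall (0 : ℂ) 1).exists_bound_of_continuousOn
    hE.continuous.continuousOn
  refine ⟨max (max B C) 0, le_max_right _ _, fun s => ?_⟩
  by_cases hs : ‖s‖ ≤ 1
  · have h1 := hB s (by simpa using hs)
    have h2 : (1 : ℝ) ≤ Real.exp (‖s‖ ^ ρ) := Real.one_le_exp (by positivity)
    have h3 : B ≤ max (max B C) 0 := le_trans (le_max_left _ _) (le_max_left _ _)
    have h4 : (0 : ℝ) ≤ max (max B C) 0 := le_max_right _ _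
    nlinarith
  · rw [not_le] at hs
    refine (hC s).trans ?_
    have h5 : C ≤ max (max B C) 0 := le_trans (le_max_right _ _) (le_max_left _ _)
    have h6 : Real.exp (‖s‖ ^ ρ₀) ≤ Real.exp (‖s‖ ^ ρ) :=
      Real.exp_le_exp.2 (Real.rpow_le_rpow_of_exponent_le hs.le hρ)
    have h7 : (0 : ℝ) < Real.exp (‖s‖ ^ ρ₀) := Real.exp_pos _
    have h8 : (0 : ℝ) ≤ max (max B C) 0 := le_max_right _ _
    calc C * Real.exp (‖s‖ ^ ρ₀) ≤ max (max B C) 0 * Real.exp (‖s‖ ^ ρ₀) :=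
          mul_le_mul_of_nonneg_right h5 h7.le
      _ ≤ _ := mul_le_mul_of_nonneg_left h6 h8

lemma FiniteOrder.mul {E G : ℂ → ℂ} (hE : Differentiable ℂ E) (hG : Differentiable ℂ G)
    (h : FiniteOrder E) (h' : FiniteOrder G) : FiniteOrder (fun s => E s * G s) := by
  obtain ⟨ρ₁, h1⟩ := h.normalize hE
  obtain ⟨ρ₂, h2⟩ := h'.normalize hG
  set ρ := max (max ρ₁ ρ₂) 0 with hρ
  obtain ⟨C, hC0, hC⟩ := h1 ρ (le_trans (le_max_left _ _) (le_max_left _ _))
  obtain ⟨D, hD0, hD⟩ := h2 ρ (le_trans (le_max_right _ _) (le_max_left _ _))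
  have hρ0 : 0 ≤ ρ := le_max_right _ _
  refine ⟨ρ + 1, C * D * Real.exp (2 * 2 ^ ρ), fun s => ?_⟩
  rw [norm_mul]
  have h3 : 2 * ‖s‖ ^ ρ ≤ 2 * 2 ^ ρ + ‖s‖ ^ (ρ + 1) := by
    by_cases hs : ‖s‖ ≤ 2
    · have h4 : ‖s‖ ^ ρ ≤ 2 ^ ρ := Real.rpow_le_rpow (norm_nonneg _) hs hρ0
      have h5 : 0 ≤ ‖s‖ ^ (ρ + 1) := by positivity
      linarith
    · rw [not_le] at hs
      have h4 : ‖s‖ ^ (ρ + 1) = ‖s‖ ^ ρ * ‖s‖ := by
        rw [Real.rpow_add (by linarith), Real.rpow_one]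
      have h5 : 0 ≤ ‖s‖ ^ ρ := by positivity
      have h6 : (0 : ℝ) ≤ 2 * 2 ^ ρ := by positivity
      rw [h4]
      nlinarith
  calc ‖E s‖ * ‖G s‖ ≤ (C * Real.exp (‖s‖ ^ ρ)) * (D * Real.exp (‖s‖ ^ ρ)) :=
        mul_le_mul (hC s) (hD s) (norm_nonneg _) (by positivity)
    _ = C * D * Real.exp (2 * ‖s‖ ^ ρ) := by
        rw [two_mul, Real.exp_add]
        ring
    _ ≤ C * D * Real.exp (2 * 2 ^ ρ + ‖s‖ ^ (ρ + 1)) := by
        gcongr
    _ = C * D * Real.exp (2 * 2 ^ ρ) * Real.exp (‖s‖ ^ (ρ + 1)) := by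
        rw [Real.exp_add]
        ring

lemma convolution_ne_zero {f g : ℕ → ℂ} (hf : ∃ n : ℕ, 0 < n ∧ f n ≠ 0)
    (hg : ∃ n : ℕ, 0 < n ∧ g n ≠ 0) : ∃ n : ℕ, 0 < n ∧ (LSeries.convolution f g) n ≠ 0 := by
  classical
  obtain ⟨hn0, hn⟩ := Nat.find_spec hf
  obtain ⟨hm0, hm⟩ := Nat.find_spec hg
  set n := Nat.find hf with hn_def
  set m := Nat.find hg with hm_def
  refine ⟨n * m, Nat.mul_pos hn0 hm0, ?_⟩
  rw [LSeries.convolution_def]
  show ∑ p ∈ (n * m).divisorsAntidiagonal, f p.1 * g p.2 ≠ 0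
  rw [Finset.sum_eq_single (n, m)]
  · exact mul_ne_zero hn hm
  · rintro ⟨d, e⟩ hde hne
    rw [Nat.mem_divisorsAntidiagonal] at hde
    obtain ⟨hde, hnz⟩ := hde
    have hd0 : 0 < d := by
      rcases Nat.eq_zero_or_pos d with h | h
      · exact absurd (by simp [← hde, h]) hnz
      · exact h
    have he0 : 0 < e := by
      rcases Nat.eq_zero_or_pos e with h | h
      · exact absurd (by simp [← hde, h]) hnz
      · exact h
    by_contra hcon
    rw [← ne_eq, mul_ne_zero_iff] at hcon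
    have h1 : n ≤ d := Nat.find_min' hf ⟨hd0, hcon.1⟩
    have h2 : m ≤ e := Nat.find_min' hg ⟨he0, hcon.2⟩
    simp only at hde
    have h3 : d = n := by
      by_contra h
      have h4 : n < d := lt_of_le_of_ne h1 (Ne.symm h)
      have : n * m < d * e := Nat.mul_lt_mul_of_lt_of_le h4 h2 (by omega)
      omega
    have h4 : e = m := by
      rw [h3] at hde
      exact Nat.eq_of_mul_eq_mul_left hn0 hde
    exact hne (by rw [h3, h4])
  · intro h
    exact absurd (Nat.mem_divisorsAntidiagonal.2 ⟨rfl, (Nat.mul_pos hn0 hm0).ne'⟩) h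

lemma Ramanujan.mul {f g : ℕ → ℂ} (hf : Ramanujan f) (hg : Ramanujan g) : Ramanujan (LSeries.convolution f g) := by
  intro ε hε
  obtain ⟨C, hC⟩ := hf (ε / 2) (by positivity)
  obtain ⟨D, hD⟩ := hg (ε / 2) (by positivity)
  obtain ⟨K, hK0, hK⟩ := Pool.Agent.H510R2.divisor_bound (ε / 2) (by positivity)
  have hC0 : 0 ≤ C := by
    have := hC 1 le_rfl
    simp only [Nat.cast_one, Real.one_rpow, mul_one] at this
    exact (norm_nonneg _).trans this
  have hD0 : 0 ≤ D := by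
    have := hD 1 le_rfl
    simp only [Nat.cast_one, Real.one_rpow, mul_one] at this
    exact (norm_nonneg _).trans this
  refine ⟨C * D * K, fun n hn => ?_⟩
  rw [LSeries.convolution_def]
  have hn0 : (0 : ℝ) < n := by exact_mod_cast hn
  calc ‖∑ p ∈ n.divisorsAntidiagonal, f p.1 * g p.2‖
      ≤ ∑ p ∈ n.divisorsAntidiagonal, ‖f p.1 * g p.2‖ := norm_sum_le _ _
    _ ≤ ∑ p ∈ n.divisorsAntidiagonal, C * D * (n : ℝ) ^ (ε / 2) := by
        refine Finset.sum_le_sum fun p hp => ?_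
        rw [Nat.mem_divisorsAntidiagonal] at hp
        obtain ⟨hp, hnz⟩ := hp
        have h1 : 1 ≤ p.1 := by
          rcases Nat.eq_zero_or_pos p.1 with h | h
          · exact absurd (by rw [← hp, h, zero_mul]) hnz
          · exact h
        have h2 : 1 ≤ p.2 := by
          rcases Nat.eq_zero_or_pos p.2 with h | h
          · exact absurd (by rw [← hp, h, mul_zero]) hnz
          · exact h
        rw [norm_mul]
        calc ‖f p.1‖ * ‖g p.2‖ ≤ (C * (p.1 : ℝ) ^ (ε / 2)) * (D * (p.2 : ℝ) ^ (ε / 2)) :=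
              mul_le_mul (hC _ h1) (hD _ h2) (norm_nonneg _) (by positivity)
          _ = C * D * (n : ℝ) ^ (ε / 2) := by
              rw [← hp, Nat.cast_mul, Real.mul_rpow (by positivity) (by positivity)]
              ring
    _ = (n.divisors.card : ℝ) * (C * D * (n : ℝ) ^ (ε / 2)) := by
        rw [Finset.sum_const, nsmul_eq_mul]
        congr 2
        rw [← Nat.map_div_right_divisors, Finset.card_map]
    _ ≤ (K * (n : ℝ) ^ (ε / 2)) * (C * D * (n : ℝ) ^ (ε / 2)) :=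
        mul_le_mul_of_nonneg_right (hK n hn) (by positivity)
    _ = C * D * K * (n : ℝ) ^ ε := by
        have : (n : ℝ) ^ ε = (n : ℝ) ^ (ε / 2) * (n : ℝ) ^ (ε / 2) := by
          rw [← Real.rpow_add hn0]
          congr 1
          ring
        rw [this]
        ring

lemma Ramanujan.summable {f : ℕ → ℂ} (hf : Ramanujan f) {s : ℂ} (hs : 1 < s.re) :
    LSeriesSummable f s := by
  obtain ⟨C, hC⟩ := hf ((s.re - 1) / 2) (by linarith)
  refine LSeriesSummable_of_le_const_mul_rpow (x := 1 + (s.re - 1) / 2) (by linarith) ⟨C, ?_⟩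
  intro n hn
  have := hC n (Nat.one_le_iff_ne_zero.2 hn)
  rw [add_sub_cancel_left]
  exact this

lemma euler_summable (F : SelbergFn) (p : Nat.Primes) {s : ℂ} (hs : 1 < s.re) :
    Summable fun k : ℕ => F.b ((p : ℕ) ^ (k + 1)) *
      ((p : ℕ) : ℂ) ^ (-(((k + 1 : ℕ) : ℂ) * s)) := by
  obtain ⟨C, hC⟩ := F.b_bound
  have hp1 : (1 : ℝ) < (p : ℕ) := by exact_mod_cast p.2.one_lt
  have hp0 : (0 : ℝ) < (p : ℕ) := by linarith
  have hθ := F.θ_lt
  set r : ℝ := ((p : ℕ) : ℝ) ^ (F.θ - s.re) with hr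
  have hr0 : 0 ≤ r := by positivity
  have hr1 : r < 1 := Real.rpow_lt_one_of_one_lt_of_neg hp1 (by linarith)
  have hgeo : Summable fun k : ℕ => C * (r ^ k * r) :=
    ((summable_geometric_of_lt_one hr0 hr1).mul_right r).mul_left C
  refine Summable.of_norm_bounded hgeo fun k => ?_
  rw [norm_mul, Complex.norm_natCast_cpow_of_pos p.2.pos]
  have h1 : (-(((k + 1 : ℕ) : ℂ) * s)).re = -((k + 1 : ℕ) : ℝ) * s.re := by
    rw [neg_re, mul_re, natCast_re, natCast_im]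
    ring
  rw [h1]
  have h2 := hC p (k + 1) p.2 (by omega)
  have h3 : (0 : ℝ) ≤ ((p : ℕ) : ℝ) ^ (-((k + 1 : ℕ) : ℝ) * s.re) := by positivity
  calc ‖F.b ((p : ℕ) ^ (k + 1))‖ * ((p : ℕ) : ℝ) ^ (-((k + 1 : ℕ) : ℝ) * s.re)
      ≤ C * ((((p : ℕ) ^ (k + 1) : ℕ) : ℝ) ^ F.θ) *
          ((p : ℕ) : ℝ) ^ (-((k + 1 : ℕ) : ℝ) * s.re) :=
        mul_le_mul_of_nonneg_right h2 h3
    _ = C * (r ^ k * r) := by
        rw [← pow_succ, hr, mul_assoc]
        congr 1
        rw [Nat.cast_pow, ← Real.rpow_natCast, ← Real.rpow_mul hp0.le, ← Real.rpow_add hp0,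
          ← Real.rpow_natCast, ← Real.rpow_mul hp0.le]
        congr 1
        ring

lemma regular_append {R R' : ℕ} {lam : Fin R → ℝ} {lam' : Fin R' → ℝ} {mu : Fin R → ℂ}
    {mu' : Fin R' → ℂ} {s : ℂ} (h : Regular (Fin.append lam lam') (Fin.append mu mu') s) :
    Regular lam mu s ∧ Regular lam' mu' s := by
  constructor
  · intro j n
    have := h (Fin.castAdd R' j) n
    rwa [Fin.append_left, Fin.append_left] at this
  · intro j n
    have := h (Fin.natAdd R j) n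
    rwa [Fin.append_right, Fin.append_right] at this

lemma completed_mul {R R' m m' : ℕ} {lam : Fin R → ℝ} {lam' : Fin R' → ℝ} {mu : Fin R → ℂ}
    {mu' : Fin R' → ℂ} {E E' : ℂ → ℂ} {Q Q' : ℝ} (hQ : 0 < Q) (hQ' : 0 < Q') (s : ℂ) :
    Completed (m + m') (fun s => E s * E' s) (Q * Q') (Fin.append lam lam')
      (Fin.append mu mu') s = Completed m E Q lam mu s * Completed m' E' Q' lam' mu' s := by
  unfold Completed
  rw [Fin.prod_univ_add]
  simp only [Fin.append_left, Fin.append_right]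
  rw [ofReal_mul, mul_cpow_ofReal_nonneg hQ.le hQ'.le, pow_add, mul_div_mul_comm]
  ring

/-- The product of two elements of the Selberg class. -/
noncomputable def SelbergFn.mul (F G : SelbergFn) : SelbergFn where
  a := LSeries.convolution F.a G.a
  ne_zero := convolution_ne_zero F.ne_zero G.ne_zero
  ramanujan := F.ramanujan.mul G.ramanujan
  m := F.m + G.m
  E s := F.E s * G.E s
  entire := F.entire.mul G.entire
  finiteOrder := F.finiteOrder.mul F.entire G.entire G.finiteOrder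
  E_eq s hs := by
    rw [F.E_eq s hs, G.E_eq s hs,
      LSeries_convolution' (F.ramanujan.summable hs) (G.ramanujan.summable hs), pow_add]
    ring
  R := F.R + G.R
  Q := F.Q * G.Q
  lam := Fin.append F.lam G.lam
  mu := Fin.append F.mu G.mu
  ω := F.ω * G.ω
  Q_pos := mul_pos F.Q_pos G.Q_pos
  lam_pos j := by
    refine Fin.addCases (fun i => ?_) (fun i => ?_) j
    · rw [Fin.append_left]
      exact F.lam_pos i
    · rw [Fin.append_right]
      exact G.lam_pos i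
  mu_re j := by
    refine Fin.addCases (fun i => ?_) (fun i => ?_) j
    · rw [Fin.append_left]
      exact F.mu_re i
    · rw [Fin.append_right]
      exact G.mu_re i
  norm_ω := by rw [norm_mul, F.norm_ω, G.norm_ω, mul_one]
  functionalEquation s h0 h1 hr hr' := by
    obtain ⟨hF, hG⟩ := regular_append hr
    obtain ⟨hF', hG'⟩ := regular_append hr'
    rw [completed_mul F.Q_pos G.Q_pos, completed_mul F.Q_pos G.Q_pos,
      F.functionalEquation s h0 h1 hF hF', G.functionalEquation s h0 h1 hG hG', map_mul]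
    ring
  b n := F.b n + G.b n
  θ := max F.θ G.θ
  θ_lt := max_lt F.θ_lt G.θ_lt
  b_bound := by
    obtain ⟨C, hC⟩ := F.b_bound
    obtain ⟨D, hD⟩ := G.b_bound
    refine ⟨|C| + |D|, fun p k hp hk => ?_⟩
    have h1 : (1 : ℝ) ≤ ((p ^ k : ℕ) : ℝ) := by
      exact_mod_cast Nat.one_le_pow _ _ hp.pos
    have h2 : ((p ^ k : ℕ) : ℝ) ^ F.θ ≤ ((p ^ k : ℕ) : ℝ) ^ (max F.θ G.θ) :=
      Real.rpow_le_rpow_of_exponent_le h1 (le_max_left _ _)
    have h3 : ((p ^ k : ℕ) : ℝ) ^ G.θ ≤ ((p ^ k : ℕ) : ℝ) ^ (max F.θ G.θ) :=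
      Real.rpow_le_rpow_of_exponent_le h1 (le_max_right _ _)
    have h4 : (0 : ℝ) ≤ ((p ^ k : ℕ) : ℝ) ^ F.θ := by positivity
    have h5 : (0 : ℝ) ≤ ((p ^ k : ℕ) : ℝ) ^ G.θ := by positivity
    calc ‖F.b (p ^ k) + G.b (p ^ k)‖ ≤ ‖F.b (p ^ k)‖ + ‖G.b (p ^ k)‖ := norm_add_le _ _
      _ ≤ C * ((p ^ k : ℕ) : ℝ) ^ F.θ + D * ((p ^ k : ℕ) : ℝ) ^ G.θ :=
          add_le_add (hC p k hp hk) (hD p k hp hk)
      _ ≤ |C| * ((p ^ k : ℕ) : ℝ) ^ F.θ + |D| * ((p ^ k : ℕ) : ℝ) ^ G.θ :=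
          add_le_add (mul_le_mul_of_nonneg_right (le_abs_self C) h4)
            (mul_le_mul_of_nonneg_right (le_abs_self D) h5)
      _ ≤ |C| * ((p ^ k : ℕ) : ℝ) ^ (max F.θ G.θ) + |D| * ((p ^ k : ℕ) : ℝ) ^ (max F.θ G.θ) :=
          add_le_add (mul_le_mul_of_nonneg_left h2 (abs_nonneg C))
            (mul_le_mul_of_nonneg_left h3 (abs_nonneg D))
      _ = _ := by ring
  euler s hs := by
    rw [LSeries_convolution' (F.ramanujan.summable hs) (G.ramanujan.summable hs)]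
    convert (F.euler s hs).mul (G.euler s hs) using 2 with p
    rw [← Complex.exp_add, ← (euler_summable F p hs).tsum_add (euler_summable G p hs)]
    congr 2
    funext k
    ring

lemma SelbergFn.degree_mul (F G : SelbergFn) : (F.mul G).degree = F.degree + G.degree := by
  unfold SelbergFn.degree
  show 2 * ∑ j, Fin.append F.lam G.lam j = _
  rw [Fin.sum_univ_add]
  simp only [Fin.append_left, Fin.append_right]
  ring

/-- The `(n+1)`-st power of `F`. -/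
noncomputable def SelbergFn.pow (F : SelbergFn) : ℕ → SelbergFn
  | 0 => F
  | n + 1 => (F.pow n).mul F

lemma SelbergFn.degree_pow (F : SelbergFn) (n : ℕ) : (F.pow n).degree = (n + 1) * F.degree := by
  induction n with
  | zero => simp [SelbergFn.pow]
  | succ n ih =>
    rw [SelbergFn.pow, SelbergFn.degree_mul, ih]
    push_cast
    ring

lemma SelbergFn.m_pow (F : SelbergFn) (n : ℕ) : (F.pow n).m = (n + 1) * F.m := by
  induction n with
  | zero => simp [SelbergFn.pow]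
  | succ n ih =>
    show (F.pow n).m + F.m = _
    rw [ih]
    ring

lemma SelbergFn.E_pow (F : SelbergFn) (n : ℕ) : (F.pow n).E = F.E ^ (n + 1) := by
  induction n with
  | zero => simp [SelbergFn.pow]
  | succ n ih =>
    show (fun s => (F.pow n).E s * F.E s) = _
    rw [ih]
    funext s
    simp [pow_succ]

end Pool.Agent.TH116.SC
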