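import Pool.Agent.TH116.SC.Basic

/-!
# The enlarged extended Selberg class is closed under products
-/

open Complex

namespace Pool.Agent.TH116.SC

/-- Polynomial growth of `E` on vertical strips. -/
def PolynomialOnStrips (E : ℂ → ℂ) : Prop :=
  ∀ σ₁ σ₂ : ℝ, ∃ M C : ℝ, 0 ≤ C ∧ ∀ s : ℂ, σ₁ ≤ s.re → s.re ≤ σ₂ →
    ‖E s‖ ≤ C * (1 + |s.im|) ^ M

/-- The function `Φ(s) = Q^s G(s) F(s)` with `F(s) = E(s) / P(s)` and
`G(s) = Π_j Γ(λ_j s + μ_j) Π_j Γ(λ'_j s + μ'_j)⁻¹`. -/
noncomputable def CompletedExt {R R' : ℕ} (P : Polynomial ℂ) (E : ℂ → ℂ) (Q : ℝ)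
    (lam : Fin R → ℝ) (mu : Fin R → ℂ) (lam' : Fin R' → ℝ) (mu' : Fin R' → ℂ) (s : ℂ) : ℂ :=
  (Q : ℂ) ^ s * ((∏ j, Complex.Gamma ((lam j : ℂ) * s + mu j)) *
    ∏ j, (Complex.Gamma ((lam' j : ℂ) * s + mu' j))⁻¹) * (E s / P.eval s)

/-- An element `F` of the enlarged extended Selberg class, with the data in (P1), (P2), (P3). -/
structure ExtFn where
  /-- the Dirichlet coefficients -/
  a : ℕ → ℂ
  ne_zero : ∃ n : ℕ, 0 < n ∧ a n ≠ 0
  /-- the Dirichlet series converges absolutely for `Re s > σ₀` -/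
  σ₀ : ℝ
  summable : ∀ s : ℂ, σ₀ < s.re → LSeriesSummable a s
  /-- a non-zero polynomial -/
  P : Polynomial ℂ
  P_ne_zero : P ≠ 0
  /-- the entire function `P(s) F(s)` -/
  E : ℂ → ℂ
  entire : Differentiable ℂ E
  E_eq : ∀ s : ℂ, σ₀ < s.re → E s = P.eval s * LSeries a s
  growth : PolynomialOnStrips E
  /-- the constant in the functional equation -/
  Q : ℝ
  /-- the sign in the functional equation -/
  ω : ℂ
  /-- the number of gamma factors -/
  R : ℕ
  /-- the coefficients in the gamma factors -/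
  lam : Fin R → ℝ
  /-- the shifts in the gamma factors -/
  mu : Fin R → ℂ
  /-- the number of inverse gamma factors -/
  R' : ℕ
  /-- the coefficients in the inverse gamma factors -/
  lam' : Fin R' → ℝ
  /-- the shifts in the inverse gamma factors -/
  mu' : Fin R' → ℂ
  Q_pos : 0 < Q
  norm_ω : ‖ω‖ = 1
  lam_pos : ∀ j, 0 < lam j
  lam'_pos : ∀ j, 0 < lam' j
  functionalEquation : ∀ s : ℂ, P.eval s ≠ 0 → P.eval (1 - starRingEnd ℂ s) ≠ 0 →
    Regular lam mu s → Regular lam mu (1 - starRingEnd ℂ s) →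
    CompletedExt P E Q lam mu lam' mu' s =
      ω * starRingEnd ℂ (CompletedExt P E Q lam mu lam' mu' (1 - starRingEnd ℂ s))

/-- The degree `d_F = 2 Σ_j λ_j - 2 Σ_j λ'_j`. -/
noncomputable def ExtFn.degree (F : ExtFn) : ℝ := 2 * ∑ j, F.lam j - 2 * ∑ j, F.lam' j

lemma PolynomialOnStrips.mul {E G : ℂ → ℂ} (h : PolynomialOnStrips E)
    (h' : PolynomialOnStrips G) : PolynomialOnStrips (fun s => E s * G s) := by
  intro σ₁ σ₂
  obtain ⟨M, C, hC0, hC⟩ := h σ₁ σ₂
  obtain ⟨M', C', hC0', hC'⟩ := h' σ₁ σ₂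
  refine ⟨M + M', C * C', mul_nonneg hC0 hC0', fun s h1 h2 => ?_⟩
  have hpos : (0 : ℝ) < 1 + |s.im| := by positivity
  rw [norm_mul]
  calc ‖E s‖ * ‖G s‖ ≤ (C * (1 + |s.im|) ^ M) * (C' * (1 + |s.im|) ^ M') :=
        mul_le_mul (hC s h1 h2) (hC' s h1 h2) (norm_nonneg _) (by positivity)
    _ = C * C' * (1 + |s.im|) ^ (M + M') := by
        rw [Real.rpow_add hpos]
        ring

lemma completedExt_mul {R S R' S' : ℕ} {lam : Fin R → ℝ} {lam₂ : Fin S → ℝ} {mu : Fin R → ℂ}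
    {mu₂ : Fin S → ℂ} {lam' : Fin R' → ℝ} {lam₂' : Fin S' → ℝ} {mu' : Fin R' → ℂ}
    {mu₂' : Fin S' → ℂ} {P P₂ : Polynomial ℂ} {E E₂ : ℂ → ℂ} {Q Q₂ : ℝ} (hQ : 0 < Q)
    (hQ₂ : 0 < Q₂) (s : ℂ) :
    CompletedExt (P * P₂) (fun s => E s * E₂ s) (Q * Q₂) (Fin.append lam lam₂)
      (Fin.append mu mu₂) (Fin.append lam' lam₂') (Fin.append mu' mu₂') s =
      CompletedExt P E Q lam mu lam' mu' s * CompletedExt P₂ E₂ Q₂ lam₂ mu₂ lam₂' mu₂' s := by
  unfold CompletedExt
  rw [Fin.prod_univ_add, Fin.prod_univ_add]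
  simp only [Fin.append_left, Fin.append_right]
  rw [ofReal_mul, mul_cpow_ofReal_nonneg hQ.le hQ₂.le, Polynomial.eval_mul, mul_div_mul_comm]
  ring

/-- The product of two elements of the enlarged extended Selberg class. -/
noncomputable def ExtFn.mul (F G : ExtFn) : ExtFn where
  a := LSeries.convolution F.a G.a
  ne_zero := convolution_ne_zero F.ne_zero G.ne_zero
  σ₀ := max F.σ₀ G.σ₀
  summable s hs := LSeriesSummable.convolution
    (F.summable s (lt_of_le_of_lt (le_max_left _ _) hs))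
    (G.summable s (lt_of_le_of_lt (le_max_right _ _) hs))
  P := F.P * G.P
  P_ne_zero := mul_ne_zero F.P_ne_zero G.P_ne_zero
  E s := F.E s * G.E s
  entire := F.entire.mul G.entire
  E_eq s hs := by
    have h1 : F.σ₀ < s.re := lt_of_le_of_lt (le_max_left _ _) hs
    have h2 : G.σ₀ < s.re := lt_of_le_of_lt (le_max_right _ _) hs
    rw [F.E_eq s h1, G.E_eq s h2, LSeries_convolution' (F.summable s h1) (G.summable s h2),
      Polynomial.eval_mul]
    ring
  growth := F.growth.mul G.growth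
  Q := F.Q * G.Q
  ω := F.ω * G.ω
  R := F.R + G.R
  lam := Fin.append F.lam G.lam
  mu := Fin.append F.mu G.mu
  R' := F.R' + G.R'
  lam' := Fin.append F.lam' G.lam'
  mu' := Fin.append F.mu' G.mu'
  Q_pos := mul_pos F.Q_pos G.Q_pos
  norm_ω := by rw [norm_mul, F.norm_ω, G.norm_ω, mul_one]
  lam_pos j := by
    refine Fin.addCases (fun i => ?_) (fun i => ?_) j
    · rw [Fin.append_left]
      exact F.lam_pos i
    · rw [Fin.append_right]
      exact G.lam_pos i
  lam'_pos j := by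
    refine Fin.addCases (fun i => ?_) (fun i => ?_) j
    · rw [Fin.append_left]
      exact F.lam'_pos i
    · rw [Fin.append_right]
      exact G.lam'_pos i
  functionalEquation s h0 h1 hr hr' := by
    obtain ⟨hF, hG⟩ := regular_append hr
    obtain ⟨hF', hG'⟩ := regular_append hr'
    rw [Polynomial.eval_mul] at h0 h1
    rw [completedExt_mul F.Q_pos G.Q_pos, completedExt_mul F.Q_pos G.Q_pos,
      F.functionalEquation s (left_ne_zero_of_mul h0) (left_ne_zero_of_mul h1) hF hF',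
      G.functionalEquation s (right_ne_zero_of_mul h0) (right_ne_zero_of_mul h1) hG hG', map_mul]
    ring

lemma ExtFn.degree_mul (F G : ExtFn) : (F.mul G).degree = F.degree + G.degree := by
  unfold ExtFn.degree
  show 2 * ∑ j, Fin.append F.lam G.lam j - 2 * ∑ j, Fin.append F.lam' G.lam' j = _
  rw [Fin.sum_univ_add, Fin.sum_univ_add]
  simp only [Fin.append_left, Fin.append_right]
  ring

/-- The `(n+1)`-st power of `F`. -/
noncomputable def ExtFn.pow (F : ExtFn) : ℕ → ExtFn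
  | 0 => F
  | n + 1 => (F.pow n).mul F

lemma ExtFn.degree_pow (F : ExtFn) (n : ℕ) : (F.pow n).degree = (n + 1) * F.degree := by
  induction n with
  | zero => simp [ExtFn.pow]
  | succ n ih =>
    rw [ExtFn.pow, ExtFn.degree_mul, ih]
    push_cast
    ring

end Pool.Agent.TH116.SC
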